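import Mathlib
import Pool.Agent.Results.MP_69de12_an.HilbertBound

open scoped InnerProductSpace
open Module
open Pool.Agent.Results.MP_69de12_an.HilbertBound

namespace Pool.Agent.Y332.HN

section General

variable {𝕜 : Type*} [RCLike 𝕜] {X Y : Type*} [NormedAddCommGroup X] [NormedSpace 𝕜 X]
  [NormedAddCommGroup Y] [NormedSpace 𝕜 Y]

/-- The remainder of `S z` after interpolation at the points `x_j` with the functionals `b_i`. -/
noncomputable def rem {m : ℕ} (S : X →L[𝕜] Y) (x : Fin m → X) (b : Fin m → Y →L[𝕜] 𝕜) (z : X) : Y :=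
  S z - ∑ j, (∑ i, ((mat S x b)⁻¹ j i) * b i (S z)) • S (x j)

/-- The remainder as a linear map. -/
noncomputable def remL {m : ℕ} (S : X →L[𝕜] Y) (x : Fin m → X) (b : Fin m → Y →L[𝕜] 𝕜) :
    X →ₗ[𝕜] Y where
  toFun := rem S x b
  map_add' u v := by
    simp only [rem, map_add, mul_add, Finset.sum_add_distrib, add_smul]
    abel
  map_smul' c u := by
    simp only [rem, map_smul, smul_eq_mul, RingHom.id_apply, smul_sub, Finset.smul_sum, smul_smul,
      Finset.mul_sum]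
    congr 1
    apply Finset.sum_congr rfl
    intro j _
    congr 1
    apply Finset.sum_congr rfl
    intro i _
    ring

lemma remL_apply {m : ℕ} (S : X →L[𝕜] Y) (x : Fin m → X) (b : Fin m → Y →L[𝕜] 𝕜) (z : X) :
    remL S x b z = rem S x b z := rfl

lemma rem_self {m : ℕ} (S : X →L[𝕜] Y) {x : Fin m → X} {b : Fin m → Y →L[𝕜] 𝕜}
    (hdet : (mat S x b).det ≠ 0) (l : Fin m) : rem S x b (x l) = 0 := by
  have h : ∀ j, ∑ i, ((mat S x b)⁻¹ j i) * b i (S (x l)) = (1 : Matrix (Fin m) (Fin m) 𝕜) j l := by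
    intro j
    rw [← Matrix.nonsing_inv_mul (mat S x b) (isUnit_iff_ne_zero.mpr hdet), Matrix.mul_apply]
    rfl
  simp only [rem, h, Matrix.one_apply, ite_smul, one_smul, zero_smul, Finset.sum_ite_eq',
    Finset.mem_univ, if_true, sub_self]

lemma apply_rem {m : ℕ} (S : X →L[𝕜] Y) {x : Fin m → X} {b : Fin m → Y →L[𝕜] 𝕜}
    (hdet : (mat S x b).det ≠ 0) (l : Fin m) (z : X) : b l (rem S x b z) = 0 := by
  have h := congrFun (congrArg (fun M : Matrix (Fin m) (Fin m) 𝕜 => M.mulVec (fun i => b i (S z)))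
    (Matrix.mul_nonsing_inv (mat S x b) (isUnit_iff_ne_zero.mpr hdet))) l
  simp only [Matrix.one_mulVec, ← Matrix.mulVec_mulVec] at h
  rw [rem, map_sub, map_sum, sub_eq_zero, ← h]
  simp only [Matrix.mulVec, dotProduct, map_smul, smul_eq_mul, mat, Matrix.of_apply]
  apply Finset.sum_congr rfl
  intro j _
  rw [mul_comm]

lemma rem_eq_of_sub_mem {m : ℕ} (S : X →L[𝕜] Y) {x : Fin m → X} {b : Fin m → Y →L[𝕜] 𝕜}
    (hdet : (mat S x b).det ≠ 0) {z z' : X} (h : z - z' ∈ Submodule.span 𝕜 (Set.range x)) :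
    rem S x b z' = rem S x b z := by
  have h1 : Submodule.span 𝕜 (Set.range x) ≤ LinearMap.ker (remL S x b) := by
    rw [Submodule.span_le]
    rintro _ ⟨l, rfl⟩
    rw [SetLike.mem_coe, LinearMap.mem_ker, remL_apply]
    exact rem_self S hdet l
  have h2 := h1 h
  rw [LinearMap.mem_ker, map_sub, sub_eq_zero] at h2
  exact h2.symm

/-- the determinant after adjoining a vector and a functional, with weights -/
lemma det_ext {m : ℕ} (S : X →L[𝕜] Y) {x : Fin m → X} {b : Fin m → Y →L[𝕜] 𝕜}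
    (hdet : (mat S x b).det ≠ 0) (z : X) (g : Y →L[𝕜] 𝕜) {α₁ β₁ α₂ β₂ : ℝ} (ha₁ : 0 ≤ α₁)
    (hb₁ : 0 ≤ β₁) (ha₂ : 0 ≤ α₂) (hb₂ : 0 ≤ β₂)
    (hx' : AdmX 𝕜 (Sum.elim (fun i => (α₁ : 𝕜) • x i) (fun _ => (β₁ : 𝕜) • z) : Fin m ⊕ Unit → X))
    (hb' : AdmY (Sum.elim (fun i => (α₂ : 𝕜) • b i) (fun _ => (β₂ : 𝕜) • g) :
      Fin m ⊕ Unit → Y →L[𝕜] 𝕜)) :
    (α₁ * α₂) ^ m * (β₁ * β₂) * (‖(mat S x b).det‖ * ‖g (rem S x b z)‖) ≤ D (m + 1) S := by
  set M := mat S x b with hM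
  set x' : Fin m ⊕ Unit → X :=
    Sum.elim (fun i => (α₁ : 𝕜) • x i) (fun _ => (β₁ : 𝕜) • z) with hxdef
  set b' : Fin m ⊕ Unit → Y →L[𝕜] 𝕜 :=
    Sum.elim (fun i => (α₂ : 𝕜) • b i) (fun _ => (β₂ : 𝕜) • g) with hbdef
  have hD := le_D (by simp) S hx' hb' (N := m + 1)
  let v₁ : Fin m ⊕ Unit → 𝕜 := Sum.elim (fun _ => (α₁ : 𝕜)) (fun _ => (β₁ : 𝕜))
  let v₂ : Fin m ⊕ Unit → 𝕜 := Sum.elim (fun _ => (α₂ : 𝕜)) (fun _ => (β₂ : 𝕜))
  let M2 : Matrix (Fin m ⊕ Unit) (Fin m ⊕ Unit) 𝕜 :=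
    Matrix.fromBlocks M (Matrix.of fun i _ => b i (S z)) (Matrix.of fun _ j => g (S (x j)))
      (Matrix.of fun _ _ => g (S z))
  have hM2 : mat S x' b' =
      Matrix.of fun i j => v₂ i * (Matrix.of fun i j => v₁ j * M2 i j) i j := by
    ext i j
    rcases i with i | i <;> rcases j with j | j <;>
      simp [mat, x', b', v₁, v₂, M2, hM, mul_comm, mul_left_comm]
  have hv₁ : ∏ i, v₁ i = ((α₁ ^ m * β₁ : ℝ) : 𝕜) := by
    rw [Fintype.prod_sum_type]
    simp [v₁]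
  have hv₂ : ∏ i, v₂ i = ((α₂ ^ m * β₂ : ℝ) : 𝕜) := by
    rw [Fintype.prod_sum_type]
    simp [v₂]
  have hinv : Invertible M := Matrix.invertibleOfIsUnitDet M (isUnit_iff_ne_zero.mpr hdet)
  have hdet2 : M2.det = M.det * g (rem S x b z) := by
    rw [Matrix.det_fromBlocks₁₁]
    congr 1
    rw [Matrix.det_unique, Matrix.sub_apply, Matrix.mul_apply, rem, map_sub, map_sum,
      Matrix.of_apply]
    congr 1
    simp only [Matrix.mul_apply, Matrix.of_apply, map_smul, smul_eq_mul, Finset.sum_mul]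
    rw [Finset.sum_comm]
    apply Finset.sum_congr rfl
    intro j _
    apply Finset.sum_congr rfl
    intro i _
    rw [Matrix.invOf_eq_nonsing_inv]
    ring
  have hfin : ‖(mat S x' b').det‖ =
      (α₁ * α₂) ^ m * (β₁ * β₂) * (‖M.det‖ * ‖g (rem S x b z)‖) := by
    rw [hM2, Matrix.det_mul_column, Matrix.det_mul_row, hv₁, hv₂, hdet2, norm_mul, norm_mul,
      norm_mul, RCLike.norm_ofReal, RCLike.norm_ofReal, abs_of_nonneg (by positivity),
      abs_of_nonneg (by positivity)]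
    ring
  rw [← hfin]
  exact hD

/-- one step from `D_m` to `D_{m+1}` -/
lemma step_of (m : ℕ) (S : X →L[𝕜] Y) {c : ℝ} (hc : 0 ≤ c)
    (H : ∀ (x : Fin m → X) (b : Fin m → Y →L[𝕜] 𝕜), AdmX 𝕜 x → AdmY b → (mat S x b).det ≠ 0 →
      ∀ z : X, ‖z‖ ≤ 1 → ‖rem S x b z‖ * ‖(mat S x b).det‖ ≤ c * D (m + 1) S) :
    approxNumber m S * D m S ≤ c * D (m + 1) S := by
  have hcD : 0 ≤ c * D (m + 1) S := mul_nonneg hc (D_nonneg _ _)
  have key : ∀ r ∈ Dset m S, approxNumber m S * r ≤ c * D (m + 1) S := by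
    rintro _ ⟨x, b, hx, hb, rfl⟩
    by_cases hdet : (mat S x b).det = 0
    · rw [hdet, norm_zero, mul_zero]; exact hcD
    have hpos : 0 < ‖(mat S x b).det‖ := norm_pos_iff.mpr hdet
    rw [← le_div_iff₀ hpos]
    apply approxNumber_le (fun j => ∑ i, ((mat S x b)⁻¹ j i) • (b i).comp S) 0 (fun j => S (x j))
    intro z hz
    rw [le_div_iff₀ hpos]
    have h := H x b hx hb hdet z hz
    simpa [sum_apply, rem] using h
  rcases (approxNumber_nonneg m S).eq_or_lt with h | h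
  · rw [← h, zero_mul]; exact hcD
  · rw [mul_comm, ← le_div_iff₀ h]
    apply csSup_le (Dset_nonempty m S)
    intro r hr
    rw [le_div_iff₀ h, mul_comm]
    exact key r hr

lemma prod_of_step (S : X →L[𝕜] Y) (c : ℕ → ℝ) (hc : ∀ m, 0 ≤ c m)
    (H : ∀ m, approxNumber m S * D m S ≤ c m * D (m + 1) S) (N : ℕ) :
    ∏ m ∈ Finset.range N, approxNumber m S ≤ (∏ m ∈ Finset.range N, c m) * D N S := by
  induction N with
  | zero => simp [D_zero]
  | succ N ih =>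
    rw [Finset.prod_range_succ, Finset.prod_range_succ]
    calc (∏ m ∈ Finset.range N, approxNumber m S) * approxNumber N S
        ≤ ((∏ m ∈ Finset.range N, c m) * D N S) * approxNumber N S :=
          mul_le_mul_of_nonneg_right ih (approxNumber_nonneg _ _)
      _ = (∏ m ∈ Finset.range N, c m) * (approxNumber N S * D N S) := by ring
      _ ≤ (∏ m ∈ Finset.range N, c m) * (c N * D (N + 1) S) :=
          mul_le_mul_of_nonneg_left (H N) (Finset.prod_nonneg fun m _ => hc m)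
      _ = _ := by ring

/-- the weight of the old vectors -/
noncomputable def wα (m : ℕ) : ℝ := Real.sqrt ((m : ℝ) / (m + 1))

/-- the weight of the new vector -/
noncomputable def wβ (m : ℕ) : ℝ := Real.sqrt (1 / ((m : ℝ) + 1))

lemma wα_nonneg (m : ℕ) : 0 ≤ wα m := Real.sqrt_nonneg _

lemma wβ_nonneg (m : ℕ) : 0 ≤ wβ m := Real.sqrt_nonneg _

lemma wα_sq (m : ℕ) : wα m ^ 2 = (m : ℝ) / (m + 1) := Real.sq_sqrt (by positivity)

lemma wβ_sq (m : ℕ) : wβ m ^ 2 = 1 / ((m : ℝ) + 1) := Real.sq_sqrt (by positivity)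

lemma w_sum (m : ℕ) : wα m ^ 2 + wβ m ^ 2 = 1 := by
  rw [wα_sq, wβ_sq]; field_simp

lemma admX_weight {m : ℕ} {x : Fin m → X} (hx : AdmX 𝕜 x) {z : X} (hz : ‖z‖ ≤ 1) :
    AdmX 𝕜 (Sum.elim (fun i => (wα m : 𝕜) • x i) (fun _ => (wβ m : 𝕜) • z) :
      Fin m ⊕ Unit → X) := by
  have hα0 := wα_nonneg m
  have hβ0 := wβ_nonneg m
  have hαβ := w_sum m
  set α := wα m
  set β := wβ m
  intro ξ
  rw [Fintype.sum_sum_type, Fintype.sum_sum_type]
  simp only [Sum.elim_inl, Sum.elim_inr, Finset.univ_unique, Finset.sum_singleton]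
  have h1 : ∑ i, ξ (Sum.inl i) • (α : 𝕜) • x i = (α : 𝕜) • ∑ i, ξ (Sum.inl i) • x i := by
    rw [Finset.smul_sum]
    exact Finset.sum_congr rfl fun i _ => smul_comm _ _ _
  rw [h1]
  set P := ‖∑ i, ξ (Sum.inl i) • x i‖ with hP
  set Q := ∑ i, ‖ξ (Sum.inl i)‖ ^ 2 with hQ
  set r := ‖ξ (Sum.inr default)‖ with hr
  have h2 : P ^ 2 ≤ Q := hx _
  have h3 : ‖(α : 𝕜) • (∑ i, ξ (Sum.inl i) • x i) + ξ (Sum.inr default) • (β : 𝕜) • z‖
      ≤ α * P + β * r := by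
    refine (norm_add_le _ _).trans ?_
    rw [norm_smul, norm_smul, norm_smul, RCLike.norm_ofReal, RCLike.norm_ofReal,
      abs_of_nonneg hα0, abs_of_nonneg hβ0, ← hP, ← hr]
    have h4 : r * (β * ‖z‖) ≤ β * r := by
      have h5 : β * ‖z‖ ≤ β := mul_le_of_le_one_right hβ0 hz
      nlinarith [norm_nonneg (ξ (Sum.inr default))]
    linarith
  have h4 : (α * P + β * r) ^ 2 ≤ P ^ 2 + r ^ 2 := by
    nlinarith [sq_nonneg (α * r - β * P), sq_nonneg P, sq_nonneg r]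
  calc _ ≤ (α * P + β * r) ^ 2 := pow_le_pow_left₀ (norm_nonneg _) h3 2
    _ ≤ P ^ 2 + r ^ 2 := h4
    _ ≤ Q + r ^ 2 := by linarith

lemma admY_weight {m : ℕ} {b : Fin m → Y →L[𝕜] 𝕜} (hb : AdmY b) {g : Y →L[𝕜] 𝕜} (hg : ‖g‖ ≤ 1) :
    AdmY (Sum.elim (fun i => (wα m : 𝕜) • b i) (fun _ => (wβ m : 𝕜) • g) :
      Fin m ⊕ Unit → Y →L[𝕜] 𝕜) := by
  have hα0 := wα_nonneg m
  have hβ0 := wβ_nonneg m
  have hαβ := w_sum m
  set α := wα m
  set β := wβ m
  intro y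
  rw [Fintype.sum_sum_type]
  simp only [Sum.elim_inl, Sum.elim_inr, Finset.univ_unique, Finset.sum_singleton,
    smul_apply, smul_eq_mul, norm_mul, RCLike.norm_ofReal,
    abs_of_nonneg hα0, abs_of_nonneg hβ0, mul_pow, ← Finset.mul_sum]
  have h1 := hb y
  have h2 : ‖g y‖ ^ 2 ≤ ‖y‖ ^ 2 := by
    apply pow_le_pow_left₀ (norm_nonneg _)
    refine (g.le_opNorm y).trans ?_
    exact mul_le_of_le_one_left (norm_nonneg _) hg
  calc _ ≤ α ^ 2 * ‖y‖ ^ 2 + β ^ 2 * ‖y‖ ^ 2 :=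
        add_le_add (mul_le_mul_of_nonneg_left h1 (sq_nonneg _))
          (mul_le_mul_of_nonneg_left h2 (sq_nonneg _))
    _ = ‖y‖ ^ 2 := by rw [← add_mul, hαβ, one_mul]

/-- the one-sided constant -/
noncomputable def cst (m : ℕ) : ℝ := Real.sqrt (((m : ℝ) + 1) ^ (m + 1) / (m : ℝ) ^ m)

lemma natpow_pos (m : ℕ) : (0 : ℝ) < (m : ℝ) ^ m := by
  rcases Nat.eq_zero_or_pos m with h | h
  · subst h; simp
  · positivity

lemma cst_mul (m : ℕ) : cst m * (wα m ^ m * wβ m) = 1 := by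
  have h1 := natpow_pos m
  have h0 : 0 ≤ cst m * (wα m ^ m * wβ m) :=
    mul_nonneg (Real.sqrt_nonneg _) (mul_nonneg (pow_nonneg (wα_nonneg m) _) (wβ_nonneg m))
  have h2 : (cst m * (wα m ^ m * wβ m)) ^ 2 = 1 := by
    have h3 : cst m ^ 2 = ((m : ℝ) + 1) ^ (m + 1) / (m : ℝ) ^ m := Real.sq_sqrt (by positivity)
    have h4 : (wα m ^ m * wβ m) ^ 2 = ((m : ℝ) / (m + 1)) ^ m * (1 / ((m : ℝ) + 1)) := by
      rw [mul_pow, wβ_sq, ← pow_mul, mul_comm m 2, pow_mul, wα_sq]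
    rw [mul_pow, h3, h4, div_pow]
    field_simp
    ring
  nlinarith

lemma cst_nonneg (m : ℕ) : 0 ≤ cst m := Real.sqrt_nonneg _

lemma prod_cst (N : ℕ) : ∏ m ∈ Finset.range N, cst m = Real.sqrt ((N : ℝ) ^ N) := by
  induction N with
  | zero => simp
  | succ N ih =>
    rw [Finset.prod_range_succ, ih, cst, ← Real.sqrt_mul (natpow_pos N).le]
    congr 1
    have h1 := natpow_pos N
    push_cast
    field_simp

end General

section InnerX

variable {𝕜 : Type*} [RCLike 𝕜] {X : Type*} [NormedAddCommGroup X] [InnerProductSpace 𝕜 X]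

lemma admX_orth {m : ℕ} {x : Fin m → X} (hx : AdmX 𝕜 x) {z : X} (hz : ‖z‖ ≤ 1)
    (hort : ∀ v ∈ Submodule.span 𝕜 (Set.range x), ⟪v, z⟫_𝕜 = 0) :
    AdmX 𝕜 (Sum.elim (fun i => ((1 : ℝ) : 𝕜) • x i) (fun _ => ((1 : ℝ) : 𝕜) • z) :
      Fin m ⊕ Unit → X) := by
  intro ξ
  rw [Fintype.sum_sum_type, Fintype.sum_sum_type]
  simp only [Sum.elim_inl, Sum.elim_inr, Finset.univ_unique, Finset.sum_singleton,
    RCLike.ofReal_one, one_smul]
  have h1 : ∑ i, ξ (Sum.inl i) • x i ∈ Submodule.span 𝕜 (Set.range x) :=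
    Submodule.sum_mem _ fun i _ => Submodule.smul_mem _ _ (Submodule.subset_span ⟨i, rfl⟩)
  have h2 : ⟪∑ i, ξ (Sum.inl i) • x i, ξ (Sum.inr default) • z⟫_𝕜 = 0 := by
    rw [inner_smul_right, hort _ h1, mul_zero]
  have h3 := norm_add_sq_eq_norm_sq_add_norm_sq_of_inner_eq_zero _ _ h2
  rw [← sq, ← sq, ← sq] at h3
  rw [h3, norm_smul, mul_pow]
  have h4 : ‖∑ i, ξ (Sum.inl i) • x i‖ ^ 2 ≤ ∑ i, ‖ξ (Sum.inl i)‖ ^ 2 := hx _
  have h5 : ‖ξ (Sum.inr default)‖ ^ 2 * ‖z‖ ^ 2 ≤ ‖ξ (Sum.inr default)‖ ^ 2 :=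
    mul_le_of_le_one_right (sq_nonneg _) (pow_le_one₀ (norm_nonneg _) hz)
  exact add_le_add h4 h5

/-- the component orthogonal to the old vectors -/
lemma exists_orth {m : ℕ} (x : Fin m → X) (z : X) (hz : ‖z‖ ≤ 1) :
    ∃ z' : X, ‖z'‖ ≤ 1 ∧ z - z' ∈ Submodule.span 𝕜 (Set.range x) ∧
      ∀ v ∈ Submodule.span 𝕜 (Set.range x), ⟪v, z'⟫_𝕜 = 0 := by
  set V := Submodule.span 𝕜 (Set.range x) with hV
  have hfin : FiniteDimensional 𝕜 V := FiniteDimensional.span_of_finite 𝕜 (Set.finite_range x)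
  refine ⟨z - V.starProjection z, ?_, ?_, ?_⟩
  · have h : z - V.starProjection z = Vᗮ.starProjection z := by
      rw [Submodule.starProjection_orthogonal_val]
    rw [h]
    exact (Submodule.norm_starProjection_apply_le _ _).trans hz
  · rw [sub_sub_cancel]
    exact Submodule.starProjection_apply_mem _ _
  · intro v hv
    have h := Submodule.sub_starProjection_mem_orthogonal (K := V) z
    exact (Submodule.mem_orthogonal _ _).mp h v hv

end InnerX

section InnerY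

variable {𝕜 : Type*} [RCLike 𝕜] {Y : Type*} [NormedAddCommGroup Y] [InnerProductSpace 𝕜 Y]

lemma admY_orth {m : ℕ} {b : Fin m → Y →L[𝕜] 𝕜} (hb : AdmY b) {u : Y} (hu : ‖u‖ = 1)
    (hort : ∀ i, b i u = 0) :
    AdmY (Sum.elim (fun i => ((1 : ℝ) : 𝕜) • b i) (fun _ => ((1 : ℝ) : 𝕜) • innerSL 𝕜 u) :
      Fin m ⊕ Unit → Y →L[𝕜] 𝕜) := by
  intro y
  rw [Fintype.sum_sum_type]
  simp only [Sum.elim_inl, Sum.elim_inr, Finset.univ_unique, Finset.sum_singleton,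
    RCLike.ofReal_one, one_smul, innerSL_apply_apply]
  set c := ⟪u, y⟫_𝕜 with hc
  have h1 : ∀ i, b i y = b i (y - c • u) := by
    intro i
    rw [map_sub, map_smul, hort i, smul_zero, sub_zero]
  have h2 : ∑ i, ‖b i y‖ ^ 2 ≤ ‖y - c • u‖ ^ 2 := by
    simp_rw [h1]
    exact hb _
  have h3 : ⟪y - c • u, c • u⟫_𝕜 = 0 := by
    rw [inner_smul_right, inner_sub_left, inner_smul_left, inner_self_eq_norm_sq_to_K, hu,
      ← inner_conj_symm y u, ← hc]
    simp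
  have h4 := norm_add_sq_eq_norm_sq_add_norm_sq_of_inner_eq_zero _ _ h3
  rw [sub_add_cancel, ← sq, ← sq, ← sq, norm_smul, hu, mul_one] at h4
  rw [h4]
  linarith

lemma norm_innerSL_unit {w : Y} (hw : w ≠ 0) :
    ∃ u : Y, ‖u‖ = 1 ∧ ‖(innerSL 𝕜 u) w‖ = ‖w‖ ∧ ∃ c : 𝕜, u = c • w := by
  have hw' : ‖w‖ ≠ 0 := norm_ne_zero_iff.mpr hw
  refine ⟨((‖w‖⁻¹ : ℝ) : 𝕜) • w, ?_, ?_, _, rfl⟩
  · rw [norm_smul, RCLike.norm_ofReal, abs_of_nonneg (by positivity), inv_mul_cancel₀ hw']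
  · rw [innerSL_apply_apply, inner_smul_left, inner_self_eq_norm_sq_to_K]
    rw [norm_mul, RCLike.norm_conj, RCLike.norm_ofReal, norm_pow, RCLike.norm_ofReal,
      abs_of_nonneg (by positivity), abs_of_nonneg (norm_nonneg _)]
    field_simp

end InnerY

section Steps

variable {𝕜 : Type*} [RCLike 𝕜]

/-- the step when the domain is an inner product space -/
lemma step_innerX {X Y : Type*} [NormedAddCommGroup X] [InnerProductSpace 𝕜 X]
    [NormedAddCommGroup Y] [NormedSpace 𝕜 Y] (m : ℕ) (S : X →L[𝕜] Y) :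
    approxNumber m S * D m S ≤ cst m * D (m + 1) S := by
  apply step_of m S (cst_nonneg m)
  intro x b hx hb hdet z hz
  obtain ⟨z', hz', hmem, hort⟩ := exists_orth (𝕜 := 𝕜) x z hz
  obtain ⟨g, hg, hgw⟩ := exists_dual_vector'' 𝕜 (rem S x b z)
  have h := det_ext S hdet z' g zero_le_one zero_le_one (wα_nonneg m) (wβ_nonneg m)
    (admX_orth hx hz' hort) (admY_weight hb hg)
  rw [rem_eq_of_sub_mem S hdet hmem, hgw, RCLike.norm_ofReal, abs_norm, one_mul, one_mul] at h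
  have h1 := cst_mul m
  calc ‖rem S x b z‖ * ‖(mat S x b).det‖
      = (cst m * (wα m ^ m * wβ m)) * (‖(mat S x b).det‖ * ‖rem S x b z‖) := by
        rw [h1]; ring
    _ = cst m * (wα m ^ m * wβ m * (‖(mat S x b).det‖ * ‖rem S x b z‖)) := by ring
    _ ≤ _ := mul_le_mul_of_nonneg_left h (cst_nonneg m)

/-- the step when the range space is an inner product space -/
lemma step_innerY {X Y : Type*} [NormedAddCommGroup X] [NormedSpace 𝕜 X]
    [NormedAddCommGroup Y] [InnerProductSpace 𝕜 Y] (m : ℕ) (S : X →L[𝕜] Y) :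
    approxNumber m S * D m S ≤ cst m * D (m + 1) S := by
  apply step_of m S (cst_nonneg m)
  intro x b hx hb hdet z hz
  by_cases hw : rem S x b z = 0
  · rw [hw, norm_zero, zero_mul]
    exact mul_nonneg (cst_nonneg m) (D_nonneg _ _)
  obtain ⟨u, hu, huw, c, hc⟩ := norm_innerSL_unit (𝕜 := 𝕜) hw
  have hort : ∀ i, b i u = 0 := by
    intro i
    rw [hc, map_smul, apply_rem S hdet, smul_zero]
  have h := det_ext S hdet z (innerSL 𝕜 u) (wα_nonneg m) (wβ_nonneg m) zero_le_one zero_le_one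
    (admX_weight hx hz) (admY_orth hb hu hort)
  rw [huw, mul_one, mul_one] at h
  have h1 := cst_mul m
  calc ‖rem S x b z‖ * ‖(mat S x b).det‖
      = (cst m * (wα m ^ m * wβ m)) * (‖(mat S x b).det‖ * ‖rem S x b z‖) := by
        rw [h1]; ring
    _ = cst m * (wα m ^ m * wβ m * (‖(mat S x b).det‖ * ‖rem S x b z‖)) := by ring
    _ ≤ _ := mul_le_mul_of_nonneg_left h (cst_nonneg m)

/-- the step when both spaces are inner product spaces -/
lemma step_inner {X Y : Type*} [NormedAddCommGroup X] [InnerProductSpace 𝕜 X]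
    [NormedAddCommGroup Y] [InnerProductSpace 𝕜 Y] (m : ℕ) (S : X →L[𝕜] Y) :
    approxNumber m S * D m S ≤ 1 * D (m + 1) S := by
  apply step_of m S zero_le_one
  intro x b hx hb hdet z hz
  by_cases hw : rem S x b z = 0
  · rw [hw, norm_zero, zero_mul]
    exact mul_nonneg zero_le_one (D_nonneg _ _)
  obtain ⟨z', hz', hmem, hort'⟩ := exists_orth (𝕜 := 𝕜) x z hz
  obtain ⟨u, hu, huw, c, hc⟩ := norm_innerSL_unit (𝕜 := 𝕜) hw
  have hort : ∀ i, b i u = 0 := by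
    intro i
    rw [hc, map_smul, apply_rem S hdet, smul_zero]
  have h := det_ext S hdet z' (innerSL 𝕜 u) zero_le_one zero_le_one zero_le_one zero_le_one
    (admX_orth hx hz' hort') (admY_orth hb hu hort)
  rw [rem_eq_of_sub_mem S hdet hmem, huw] at h
  simp only [mul_one, one_pow, one_mul] at h ⊢
  rw [mul_comm]
  exact h

end Steps

end Pool.Agent.Y332.HN
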