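import Mathlib
import Pool.Agent.Y332.HN.Step

open scoped InnerProductSpace
open Module
open Pool.Agent.Results.MP_69de12_an.HilbertBound

namespace Pool.Agent.Y332.HN

lemma amgm {ι : Type*} [Fintype ι] (z : ι → ℝ) (hz : ∀ i, 0 ≤ z i) :
    ∏ i, z i ≤ ((∑ i, z i) / Fintype.card ι) ^ Fintype.card ι := by
  classical
  rcases Nat.eq_zero_or_pos (Fintype.card ι) with h0 | h0
  · have : IsEmpty ι := Fintype.card_eq_zero_iff.mp h0
    simp
  have hn : (0 : ℝ) < Fintype.card ι := by exact_mod_cast h0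
  have h := Real.geom_mean_le_arith_mean Finset.univ (fun _ => (1 : ℝ)) z (fun i _ => zero_le_one)
    (by simpa using hn) (fun i _ => hz i)
  simp only [Real.rpow_one, Finset.sum_const, Finset.card_univ, nsmul_eq_mul, mul_one, one_mul] at h
  have hP : 0 ≤ ∏ i, z i := Finset.prod_nonneg fun i _ => hz i
  have h1 := pow_le_pow_left₀ (Real.rpow_nonneg hP _) h (Fintype.card ι)
  rwa [← Real.rpow_natCast, ← Real.rpow_mul hP, inv_mul_cancel₀ hn.ne', Real.rpow_one] at h1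

open scoped ComplexOrder in
lemma normDet_sq_le {𝕜 : Type*} [RCLike 𝕜] {U V : Type*} [NormedAddCommGroup U]
    [InnerProductSpace 𝕜 U] [FiniteDimensional 𝕜 U] [NormedAddCommGroup V] [InnerProductSpace 𝕜 V]
    {ι : Type*} [Fintype ι] [DecidableEq ι] (h : U →ₗ[𝕜] V) (b : OrthonormalBasis ι 𝕜 U) :
    h.normDet ^ 2 ≤ ((∑ i, ‖h (b i)‖ ^ 2) / Fintype.card ι) ^ Fintype.card ι := by
  have hG := Matrix.posSemidef_gram 𝕜 (fun i => h (b i))
  have h1 := h.normDet_sq_eq_det_gram b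
  rw [hG.isHermitian.det_eq_prod_eigenvalues] at h1
  have h2 : h.normDet ^ 2 = ∏ i, hG.isHermitian.eigenvalues i := by
    have : (((h.normDet ^ 2 : ℝ)) : 𝕜) = ((∏ i, hG.isHermitian.eigenvalues i : ℝ) : 𝕜) := by
      rw [h1]; push_cast; rfl
    exact_mod_cast this
  have h3 := hG.isHermitian.trace_eq_sum_eigenvalues
  have h4 : ∑ i, ‖h (b i)‖ ^ 2 = ∑ i, hG.isHermitian.eigenvalues i := by
    have : ((∑ i, ‖h (b i)‖ ^ 2 : ℝ) : 𝕜) = ((∑ i, hG.isHermitian.eigenvalues i : ℝ) : 𝕜) := by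
      push_cast
      rw [← h3, Matrix.trace]
      apply Finset.sum_congr rfl
      intro i _
      rw [Matrix.diag_apply, Matrix.gram_apply, inner_self_eq_norm_sq_to_K]
    exact_mod_cast this
  rw [h2, h4]
  exact amgm _ fun i => hG.eigenvalues_nonneg i

section Factor

variable {𝕜 : Type*} [RCLike 𝕜] {X Y H : Type*} [NormedAddCommGroup X] [NormedSpace 𝕜 X]
  [NormedAddCommGroup Y] [NormedSpace 𝕜 Y] [NormedAddCommGroup H] [InnerProductSpace 𝕜 H]

/-- Determinants of an operator which factors through an inner product space. -/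
lemma det_factor {N : ℕ} (S : X →L[𝕜] Y) (S₁ : X →L[𝕜] H) (S₂ : H →L[𝕜] Y)
    (hS : ∀ x, S x = S₂ (S₁ x)) (x : Fin N → X) (b : Fin N → Y →L[𝕜] 𝕜) {s t : ℝ} (hs : 0 ≤ s)
    (ht : 0 ≤ t) (h1 : ∑ j, ‖S₁ (x j)‖ ^ 2 ≤ N * s)
    (h2 : ∀ v : Fin N → H, Orthonormal 𝕜 v → ∑ i, ∑ l, ‖b l (S₂ (v i))‖ ^ 2 ≤ N * t) :
    ‖(mat S x b).det‖ ^ 2 ≤ (s * t) ^ N := by
  let f : EuclideanSpace 𝕜 (Fin N) →ₗ[𝕜] H :=
    { toFun := fun ξ => ∑ j, ξ j • S₁ (x j)
      map_add' := fun ξ η => by simp [add_smul, Finset.sum_add_distrib]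
      map_smul' := fun c ξ => by simp [mul_smul, Finset.smul_sum] }
  let g : H →ₗ[𝕜] EuclideanSpace 𝕜 (Fin N) :=
    { toFun := fun y => WithLp.toLp 2 (fun i => b i (S₂ y))
      map_add' := fun y z => by ext i; simp
      map_smul' := fun c y => by ext i; simp }
  have hdet : LinearMap.det (g ∘ₗ f) = (mat S x b).det := by
    rw [← LinearMap.det_toMatrix (EuclideanSpace.basisFun (Fin N) 𝕜).toBasis]
    congr 1
    ext i j
    rw [LinearMap.toMatrix_apply]
    simp [f, g, mat, hS]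
  rw [← hdet, ← LinearMap.normDet_eq_norm_det, LinearMap.normDet_comp]
  have hf : f.normDet ^ 2 ≤ s ^ N := by
    refine (normDet_sq_le f (EuclideanSpace.basisFun (Fin N) 𝕜)).trans ?_
    rw [Fintype.card_fin]
    have h3 : ∑ i, ‖f (EuclideanSpace.basisFun (Fin N) 𝕜 i)‖ ^ 2 = ∑ j, ‖S₁ (x j)‖ ^ 2 := by
      apply Finset.sum_congr rfl
      intro i _
      congr 2
      simp [f]
    rw [h3]
    apply pow_le_pow_left₀ (by positivity)
    rcases Nat.eq_zero_or_pos N with h0 | h0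
    · subst h0; simpa using hs
    rw [div_le_iff₀ (by exact_mod_cast h0), mul_comm s]
    exact h1
  by_cases hinj : f.ker = ⊥
  · have hfr : finrank 𝕜 f.range = N := by
      rw [LinearMap.finrank_range_of_inj (LinearMap.ker_eq_bot.mp hinj)]
      simp
    let v : OrthonormalBasis (Fin N) 𝕜 f.range :=
      (stdOrthonormalBasis 𝕜 f.range).reindex (finCongr hfr)
    have hg : (g.domRestrict f.range).normDet ^ 2 ≤ t ^ N := by
      refine (normDet_sq_le _ v).trans ?_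
      rw [Fintype.card_fin]
      have h3 : ∑ i, ‖(g.domRestrict f.range) (v i)‖ ^ 2 =
          ∑ i, ∑ l, ‖b l (S₂ ((v i : H)))‖ ^ 2 := by
        apply Finset.sum_congr rfl
        intro i _
        rw [EuclideanSpace.norm_sq_eq]
        rfl
      rw [h3]
      have hv : Orthonormal 𝕜 (fun i => (v i : H)) :=
        v.orthonormal.comp_linearIsometry f.range.subtypeₗᵢ
      apply pow_le_pow_left₀ (by positivity)
      rcases Nat.eq_zero_or_pos N with h0 | h0
      · subst h0; simpa using ht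
      rw [div_le_iff₀ (by exact_mod_cast h0), mul_comm t]
      exact h2 _ hv
    rw [mul_pow, mul_pow, mul_comm (s ^ N)]
    exact mul_le_mul hg hf (sq_nonneg _) (pow_nonneg ht _)
  · have h0 : f.normDet = 0 := LinearMap.normDet_eq_zero_iff_ker_ne_bot.mpr hinj
    rw [h0, mul_zero, zero_pow two_ne_zero]
    exact pow_nonneg (mul_nonneg hs ht) _

/-- an upper bound for the `D`-numbers from `det_factor` -/
lemma D_le_of_factor {N : ℕ} (S : X →L[𝕜] Y) (S₁ : X →L[𝕜] H) (S₂ : H →L[𝕜] Y)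
    (hS : ∀ x, S x = S₂ (S₁ x)) {s t : ℝ} (hs : 0 ≤ s) (ht : 0 ≤ t)
    (h1 : ∀ x : Fin N → X, AdmX 𝕜 x → ∑ j, ‖S₁ (x j)‖ ^ 2 ≤ N * s)
    (h2 : ∀ b : Fin N → Y →L[𝕜] 𝕜, AdmY b → ∀ v : Fin N → H, Orthonormal 𝕜 v →
      ∑ i, ∑ l, ‖b l (S₂ (v i))‖ ^ 2 ≤ N * t) :
    D N S ≤ Real.sqrt (s * t) ^ N := by
  apply csSup_le (Dset_nonempty N S)
  rintro _ ⟨x, b, hx, hb, rfl⟩
  have h := det_factor S S₁ S₂ hS x b hs ht (h1 x hx) (h2 b hb)
  have h3 : ‖(mat S x b).det‖ ^ 2 ≤ (Real.sqrt (s * t) ^ N) ^ 2 := by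
    rw [← pow_mul, mul_comm N 2, pow_mul, Real.sq_sqrt (mul_nonneg hs ht)]
    exact h
  exact le_of_sq_le_sq h3 (by positivity)

end Factor

/-- signs for which the norm of a signed sum is large -/
lemma exists_signs {𝕜 : Type*} [RCLike 𝕜] {H : Type*} [NormedAddCommGroup H]
    [InnerProductSpace 𝕜 H] (v : ℕ → H) (K : ℕ) :
    ∃ ε : ℕ → ℝ, (∀ k, |ε k| = 1) ∧
      ∑ k ∈ Finset.range K, ‖v k‖ ^ 2 ≤ ‖∑ k ∈ Finset.range K, (ε k : 𝕜) • v k‖ ^ 2 := by
  induction K with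
  | zero => exact ⟨fun _ => 1, by simp, by simp⟩
  | succ K ih =>
    obtain ⟨ε, hε, h⟩ := ih
    set s := ∑ k ∈ Finset.range K, (ε k : 𝕜) • v k with hs
    obtain ⟨δ, hδ, hδ2⟩ : ∃ δ : ℝ, |δ| = 1 ∧ 0 ≤ δ * RCLike.re ⟪s, v K⟫_𝕜 := by
      rcases le_total 0 (RCLike.re ⟪s, v K⟫_𝕜) with h0 | h0
      · exact ⟨1, by simp, by simpa using h0⟩
      · exact ⟨-1, by simp, by simpa using h0⟩
    refine ⟨fun k => if k = K then δ else ε k, ?_, ?_⟩
    · intro k
      by_cases hk : k = K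
      · simp [hk, hδ]
      · simp [hk, hε]
    · rw [Finset.sum_range_succ, Finset.sum_range_succ]
      have h1 : ∑ k ∈ Finset.range K, ((if k = K then δ else ε k : ℝ) : 𝕜) • v k = s := by
        rw [hs]
        apply Finset.sum_congr rfl
        intro k hk
        rw [if_neg (Finset.mem_range.mp hk).ne]
      beta_reduce
      rw [h1, if_pos rfl, @norm_add_sq 𝕜, inner_smul_right, RCLike.re_ofReal_mul, norm_smul,
        RCLike.norm_ofReal, hδ, one_mul]
      linarith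

/-- `h_n ^ (n+1) ≤ D_{n+1}`, in the form used below -/
lemma hilbertNumber_le_of_D {𝕜 : Type*} [RCLike 𝕜] {X Y : Type*} [NormedAddCommGroup X]
    [NormedSpace 𝕜 X] [NormedAddCommGroup Y] [NormedSpace 𝕜 Y] (n : ℕ) (S : X →L[𝕜] Y) {c : ℝ}
    (hc : 0 ≤ c) (h : D (n + 1) S ≤ c ^ (n + 1)) : hilbertNumber n S ≤ c := by
  unfold hilbertNumber
  apply csSup_le
  · exact ⟨_, 0, 0, by simp, by simp, rfl⟩
  rintro _ ⟨A, B, hA, hB, rfl⟩
  set T : Ell2 𝕜 →L[𝕜] Ell2 𝕜 := B.comp (S.comp A) with hT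
  have h1 := prod_of_step T (fun _ => 1) (fun _ => zero_le_one) (fun m => step_inner m T) (n + 1)
  rw [Finset.prod_const_one, one_mul] at h1
  have h2 : approxNumber n T ^ (n + 1) ≤ ∏ m ∈ Finset.range (n + 1), approxNumber m T := by
    have h2 : approxNumber n T ^ (n + 1) = ∏ _m ∈ Finset.range (n + 1), approxNumber n T := by
      rw [Finset.prod_const, Finset.card_range]
    rw [h2]
    apply Finset.prod_le_prod
    · intro i _
      exact approxNumber_nonneg n T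
    · intro i hi
      exact approxNumber_antitone T (Nat.lt_succ_iff.mp (Finset.mem_range.mp hi))
  have h3 : D (n + 1) T ≤ D (n + 1) S := by
    apply csSup_le (Dset_nonempty _ T)
    rintro _ ⟨x, b, hx, hb, rfl⟩
    have hx' : AdmX 𝕜 (fun i => A (x i)) := by
      intro ξ
      have h4 : ∑ i, ξ i • A (x i) = A (∑ i, ξ i • x i) := by simp
      rw [h4]
      refine le_trans ?_ (hx ξ)
      apply pow_le_pow_left₀ (norm_nonneg _)
      exact (A.le_opNorm _).trans (mul_le_of_le_one_left (norm_nonneg _) hA)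
    have hb' : AdmY (fun i => (b i).comp B) := by
      intro y
      refine (hb (B y)).trans ?_
      apply pow_le_pow_left₀ (norm_nonneg _)
      exact (B.le_opNorm _).trans (mul_le_of_le_one_left (norm_nonneg _) hB)
    exact le_csSup (Dset_bdd _ S) ⟨_, _, hx', hb', rfl⟩
  exact le_of_pow_le_pow_left₀ (Nat.succ_ne_zero n) hc (h2.trans (h1.trans (h3.trans h)))

/-- a lower bound for approximation numbers -/
lemma half_le_approx {𝕜 : Type*} [RCLike 𝕜] {X Y : Type*} [NormedAddCommGroup X]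
    [NormedSpace 𝕜 X] [NormedAddCommGroup Y] [NormedSpace 𝕜 Y] (n : ℕ) (S : X →L[𝕜] Y)
    (e : ℕ → X) (he : ∀ i, ‖e i‖ ≤ 1) (hS : ∀ i j, i ≠ j → 1 ≤ ‖S (e i) - S (e j)‖) :
    1 / 2 ≤ approxNumber n S := by
  unfold approxNumber
  apply le_csInf
  · exact ⟨_, 0, 0, 0, rfl⟩
  rintro _ ⟨u, y₀, y, rfl⟩
  by_contra hcon
  push Not at hcon
  set w := worstError S u y₀ y with hw
  set C : ℝ := ∑ l, ‖u l‖ with hC
  have hb : ∀ i, (fun l => u l (e i)) ∈ Metric.closedBall (0 : Fin n → 𝕜) C := by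
    intro i
    rw [mem_closedBall_zero_iff, pi_norm_le_iff_of_nonneg (Finset.sum_nonneg fun _ _ => norm_nonneg _)]
    intro l
    refine ((u l).le_opNorm (e i)).trans ?_
    refine (mul_le_of_le_one_right (norm_nonneg _) (he i)).trans ?_
    exact Finset.single_le_sum (f := fun l => ‖u l‖) (fun _ _ => norm_nonneg _) (Finset.mem_univ l)
  obtain ⟨a, -, φ, hφ, hlim⟩ := tendsto_subseq_of_bounded Metric.isBounded_closedBall hb
  have hlim2 : Filter.Tendsto (fun i => ∑ l, (u l (e (φ i))) • y l) Filter.atTop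
      (nhds (∑ l, a l • y l)) := by
    apply tendsto_finsetSum
    intro l _
    exact ((tendsto_pi_nhds.mp hlim l)).smul_const (y l)
  have hcau := hlim2.cauchySeq
  obtain ⟨M, hM⟩ := Metric.cauchySeq_iff.mp hcau (1 - 2 * w) (by linarith)
  have h1 := hM M le_rfl (M + 1) (Nat.le_succ M)
  have hne : φ M ≠ φ (M + 1) := (hφ (Nat.lt_succ_self M)).ne
  have h2 := hS _ _ hne
  have h3 := le_worstError S u y₀ y (he (φ M))
  have h4 := le_worstError S u y₀ y (he (φ (M + 1)))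
  rw [dist_eq_norm] at h1
  have h5 : S (e (φ M)) - S (e (φ (M + 1))) =
      (S (e (φ M)) - y₀ - ∑ l, u l (e (φ M)) • y l) -
      (S (e (φ (M + 1))) - y₀ - ∑ l, u l (e (φ (M + 1))) • y l) +
      (∑ l, u l (e (φ M)) • y l - ∑ l, u l (e (φ (M + 1))) • y l) := by abel
  rw [h5] at h2
  have h6 := norm_add_le ((S (e (φ M)) - y₀ - ∑ l, u l (e (φ M)) • y l) -
      (S (e (φ (M + 1))) - y₀ - ∑ l, u l (e (φ (M + 1))) • y l))
      (∑ l, u l (e (φ M)) • y l - ∑ l, u l (e (φ (M + 1))) • y l)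
  have h7 := norm_sub_le (S (e (φ M)) - y₀ - ∑ l, u l (e (φ M)) • y l)
      (S (e (φ (M + 1))) - y₀ - ∑ l, u l (e (φ (M + 1))) • y l)
  linarith

end Pool.Agent.Y332.HN
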