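import Mathlib
import Pool.Agent.Y332.HN.Gram

open scoped InnerProductSpace ENNReal
open Module
open Pool.Agent.Results.MP_69de12_an.HilbertBound

namespace Pool.Agent.Y332.HN

section Spaces

variable {𝕜 : Type*} [RCLike 𝕜]

/-- The space `ℓ¹` over `𝕜`. -/
abbrev Ell1 (𝕜 : Type*) [RCLike 𝕜] : Type _ := lp (fun _ : ℕ => 𝕜) 1

/-- The space `ℓ^∞` over `𝕜`. -/
abbrev EllTop (𝕜 : Type*) [RCLike 𝕜] : Type _ := lp (fun _ : ℕ => 𝕜) ∞

lemma hasSum_sq (f : Ell2 𝕜) : HasSum (fun k => ‖f k‖ ^ 2) (‖f‖ ^ 2) := by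
  have h := lp.hasSum_norm (p := 2) (by norm_num) f
  simpa using h

lemma hasSum_one (f : Ell1 𝕜) : HasSum (fun k => ‖f k‖) ‖f‖ := by
  have h := lp.hasSum_norm (p := 1) (by norm_num) f
  simpa using h

/-- The formal identity `ℓ¹ → ℓ²`. -/
noncomputable def J12 (𝕜 : Type*) [RCLike 𝕜] : Ell1 𝕜 →L[𝕜] Ell2 𝕜 :=
  LinearMap.mkContinuous (lp.linearMapOfLE 𝕜 (fun _ : ℕ => 𝕜) (by norm_num : (1 : ℝ≥0∞) ≤ 2)) 1 (by
    intro f
    rw [one_mul]
    apply le_of_sq_le_sq _ (norm_nonneg _)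
    have h1 := hasSum_sq (lp.linearMapOfLE 𝕜 (fun _ : ℕ => 𝕜) (by norm_num : (1 : ℝ≥0∞) ≤ 2) f)
    have h2 := (hasSum_one f).mul_left ‖f‖
    rw [← sq] at h2
    refine hasSum_le ?_ h1 h2
    intro k
    rw [lp.coe_linearMapOfLE_apply, sq]
    exact mul_le_mul_of_nonneg_right (lp.norm_apply_le_norm one_ne_zero f k) (norm_nonneg _))

lemma J12_apply (f : Ell1 𝕜) (k : ℕ) : (J12 𝕜 f : ℕ → 𝕜) k = f k := rfl

/-- The formal identity `ℓ² → ℓ^∞`. -/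
noncomputable def J2T (𝕜 : Type*) [RCLike 𝕜] : Ell2 𝕜 →L[𝕜] EllTop 𝕜 :=
  LinearMap.mkContinuous (lp.linearMapOfLE 𝕜 (fun _ : ℕ => 𝕜) (le_top : (2 : ℝ≥0∞) ≤ ∞)) 1 (by
    intro f
    rw [one_mul]
    apply lp.norm_le_of_forall_le (norm_nonneg _)
    intro k
    rw [lp.coe_linearMapOfLE_apply]
    exact lp.norm_apply_le_norm two_ne_zero f k)

lemma J2T_apply (f : Ell2 𝕜) (k : ℕ) : (J2T 𝕜 f : ℕ → 𝕜) k = f k := rfl

/-- The formal identity `ℓ¹ → ℓ^∞`. -/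
noncomputable def J1T (𝕜 : Type*) [RCLike 𝕜] : Ell1 𝕜 →L[𝕜] EllTop 𝕜 := (J2T 𝕜).comp (J12 𝕜)

lemma J1T_apply (f : Ell1 𝕜) (k : ℕ) : (J1T 𝕜 f : ℕ → 𝕜) k = f k := rfl

lemma J2T_single (k : ℕ) : J2T 𝕜 (lp.single 2 k (1 : 𝕜)) = lp.single ∞ k (1 : 𝕜) := by
  ext j
  rw [J2T_apply]
  by_cases h : j = k
  · subst h
    rw [lp.single_apply_self, lp.single_apply_self]
  · rw [lp.single_apply_ne _ _ _ h, lp.single_apply_ne _ _ _ h]

/-- Sum of squares over the unit vectors, for functionals on `ℓ^∞`. -/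
lemma hs_Y {N : ℕ} {b : Fin N → EllTop 𝕜 →L[𝕜] 𝕜} (hb : AdmY b) (K : ℕ) :
    ∑ k ∈ Finset.range K, ∑ i, ‖b i (lp.single ∞ k (1 : 𝕜))‖ ^ 2 ≤ 1 := by
  obtain ⟨ε, hε, h⟩ := exists_signs (𝕜 := 𝕜)
    (fun k => (WithLp.toLp 2 (fun i => b i (lp.single ∞ k (1 : 𝕜))) :
      EuclideanSpace 𝕜 (Fin N))) K
  simp only [EuclideanSpace.norm_sq_eq] at h
  refine h.trans ?_
  set y : EllTop 𝕜 := ∑ k ∈ Finset.range K, (ε k : 𝕜) • lp.single ∞ k (1 : 𝕜) with hy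
  have h1 : ∀ i, (∑ k ∈ Finset.range K, (ε k : 𝕜) • (WithLp.toLp 2
      (fun i => b i (lp.single ∞ k (1 : 𝕜))) : EuclideanSpace 𝕜 (Fin N))) i = b i y := by
    intro i
    rw [hy, map_sum]
    simp
  simp only [h1]
  refine (hb y).trans ?_
  apply pow_le_one₀ (norm_nonneg _)
  apply lp.norm_le_of_forall_le zero_le_one
  intro j
  rw [hy, lp.coeFn_sum, Finset.sum_apply]
  by_cases hj : j ∈ Finset.range K
  · rw [Finset.sum_eq_single_of_mem j hj]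
    · rw [lp.coeFn_smul, Pi.smul_apply, lp.single_apply_self, norm_smul, RCLike.norm_ofReal, hε]
      simp
    · intro k _ hk
      rw [lp.coeFn_smul, Pi.smul_apply, lp.single_apply_ne _ _ _ (Ne.symm hk), smul_zero]
  · rw [Finset.sum_eq_zero]
    · simp
    · intro k hk
      have hjk : j ≠ k := by rintro rfl; exact hj hk
      rw [lp.coeFn_smul, Pi.smul_apply, lp.single_apply_ne _ _ _ hjk, smul_zero]

/-- Sum of squares of the coordinates, for admissible vectors of `ℓ¹`. -/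
lemma hs_X {N : ℕ} {x : Fin N → Ell1 𝕜} (hx : AdmX 𝕜 x) (K : ℕ) :
    ∑ k ∈ Finset.range K, ∑ j, ‖x j k‖ ^ 2 ≤ 1 := by
  obtain ⟨ε, hε, h⟩ := exists_signs (𝕜 := 𝕜)
    (fun k => (WithLp.toLp 2 (fun j => x j k) : EuclideanSpace 𝕜 (Fin N))) K
  set s : EuclideanSpace 𝕜 (Fin N) := ∑ k ∈ Finset.range K,
    (ε k : 𝕜) • (WithLp.toLp 2 (fun j => x j k) : EuclideanSpace 𝕜 (Fin N)) with hs
  simp only [EuclideanSpace.norm_sq_eq (𝕜 := 𝕜) (WithLp.toLp 2 _)] at h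
  refine h.trans ?_
  rw [← EuclideanSpace.norm_sq_eq]
  set y : Ell1 𝕜 := ∑ j, (starRingEnd 𝕜 (s j)) • x j with hy
  have hyn : ‖y‖ ≤ ‖s‖ := by
    apply le_of_sq_le_sq _ (norm_nonneg _)
    refine (hx _).trans ?_
    rw [EuclideanSpace.norm_sq_eq]
    simp
  have hsj : ∀ j, s j = ∑ k ∈ Finset.range K, (ε k : 𝕜) * x j k := by
    intro j
    rw [hs]
    simp [RCLike.real_smul_eq_coe_mul]
  have h1 : ((‖s‖ ^ 2 : ℝ) : 𝕜) = ∑ k ∈ Finset.range K, (ε k : 𝕜) * y k := by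
    have h2 : ∀ k, (y : ℕ → 𝕜) k = ∑ j, (starRingEnd 𝕜 (s j)) * x j k := by
      intro k
      rw [hy, lp.coeFn_sum, Finset.sum_apply]
      rfl
    simp only [h2, Finset.mul_sum]
    rw [Finset.sum_comm, EuclideanSpace.norm_sq_eq]
    push_cast
    apply Finset.sum_congr rfl
    intro j _
    rw [← RCLike.conj_mul]
    conv_lhs => rw [hsj j]
    rw [← hsj j, hsj j, Finset.mul_sum, ← hsj j]
    apply Finset.sum_congr rfl
    intro k _
    ring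
  have h2 : ‖s‖ ^ 2 ≤ ‖s‖ := by
    have h3 : ‖s‖ ^ 2 = ‖((‖s‖ ^ 2 : ℝ) : 𝕜)‖ := by
      rw [RCLike.norm_ofReal, abs_of_nonneg (sq_nonneg _)]
    rw [h3, h1]
    refine (norm_sum_le _ _).trans ?_
    have h4 : ∀ k, ‖(ε k : 𝕜) * y k‖ = ‖y k‖ := by
      intro k
      rw [norm_mul, RCLike.norm_ofReal, hε, one_mul]
    simp only [h4]
    refine le_trans ?_ hyn
    exact sum_le_hasSum _ (fun _ _ => norm_nonneg _) (hasSum_one y)
  have h3 : ‖s‖ ≤ 1 := by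
    by_contra hcon
    push Not at hcon
    nlinarith
  exact pow_le_one₀ (norm_nonneg _) h3

lemma sum_J12 {N : ℕ} {x : Fin N → Ell1 𝕜} (hx : AdmX 𝕜 x) : ∑ j, ‖J12 𝕜 (x j)‖ ^ 2 ≤ 1 := by
  have h : HasSum (fun k => ∑ j, ‖x j k‖ ^ 2) (∑ j, ‖J12 𝕜 (x j)‖ ^ 2) :=
    hasSum_sum fun j _ => hasSum_sq (J12 𝕜 (x j))
  exact le_of_tendsto' h.tendsto_sum_nat fun K => hs_X hx K

lemma dual_sq (φ : Ell2 𝕜 →L[𝕜] 𝕜) :
    ∃ w : Ell2 𝕜, (∀ y, φ y = ⟪w, y⟫_𝕜) ∧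
      HasSum (fun k => ‖φ (lp.single 2 k (1 : 𝕜))‖ ^ 2) (‖w‖ ^ 2) := by
  refine ⟨(InnerProductSpace.toDual 𝕜 (Ell2 𝕜)).symm φ, ?_, ?_⟩
  · intro y
    rw [InnerProductSpace.toDual_symm_apply]
  · set w := (InnerProductSpace.toDual 𝕜 (Ell2 𝕜)).symm φ with hw
    have h : ∀ k, ‖φ (lp.single 2 k (1 : 𝕜))‖ ^ 2 = ‖w k‖ ^ 2 := by
      intro k
      have h1 : φ (lp.single 2 k (1 : 𝕜)) = ⟪w, lp.single 2 k (1 : 𝕜)⟫_𝕜 := by
        rw [hw, InnerProductSpace.toDual_symm_apply]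
      rw [h1, lp.inner_single_right]
      simp
    simp only [h]
    exact hasSum_sq w

lemma sum_J2T {N : ℕ} {b : Fin N → EllTop 𝕜 →L[𝕜] 𝕜} (hb : AdmY b) {v : Fin N → Ell2 𝕜}
    (hv : Orthonormal 𝕜 v) : ∑ i, ∑ l, ‖b l (J2T 𝕜 (v i))‖ ^ 2 ≤ 1 := by
  choose w hw1 hw2 using fun l => dual_sq ((b l).comp (J2T 𝕜))
  have h1 : ∀ l, ∑ i, ‖b l (J2T 𝕜 (v i))‖ ^ 2 ≤ ‖w l‖ ^ 2 := by
    intro l
    have h2 : ∀ i, ‖b l (J2T 𝕜 (v i))‖ ^ 2 = ‖⟪v i, w l⟫_𝕜‖ ^ 2 := by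
      intro i
      have h3 : b l (J2T 𝕜 (v i)) = ⟪w l, v i⟫_𝕜 := hw1 l (v i)
      rw [h3, norm_inner_symm]
    simp only [h2]
    exact hv.sum_inner_products_le (w l)
  rw [Finset.sum_comm]
  refine (Finset.sum_le_sum fun l _ => h1 l).trans ?_
  have h : HasSum (fun k => ∑ l, ‖b l (lp.single ∞ k (1 : 𝕜))‖ ^ 2) (∑ l, ‖w l‖ ^ 2) := by
    apply hasSum_sum
    intro l _
    have h4 := hw2 l
    simpa [J2T_single] using h4
  exact le_of_tendsto' h.tendsto_sum_nat fun K => hs_Y hb K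

lemma sum_adm {H : Type*} [NormedAddCommGroup H] [InnerProductSpace 𝕜 H] {N : ℕ}
    {x : Fin N → H} (hx : AdmX 𝕜 x) : ∑ j, ‖ContinuousLinearMap.id 𝕜 H (x j)‖ ^ 2 ≤ N * 1 := by
  have h : ∀ j, ‖ContinuousLinearMap.id 𝕜 H (x j)‖ ^ 2 ≤ 1 := by
    intro j
    have h1 := hx (Pi.single j 1)
    have h2 : ∑ i, (Pi.single j 1 : Fin N → 𝕜) i • x i = x j := by
      rw [Finset.sum_eq_single_of_mem j (Finset.mem_univ _)]
      · rw [Pi.single_eq_same, one_smul]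
      · intro i _ hi
        rw [Pi.single_eq_of_ne hi, zero_smul]
    have h3 : ∑ i, ‖(Pi.single j 1 : Fin N → 𝕜) i‖ ^ 2 = 1 := by
      rw [Finset.sum_eq_single_of_mem j (Finset.mem_univ _)]
      · rw [Pi.single_eq_same]; simp
      · intro i _ hi
        rw [Pi.single_eq_of_ne hi]; simp
    rw [h2, h3] at h1
    exact h1
  refine (Finset.sum_le_sum fun j _ => h j).trans ?_
  simp

lemma sum_admY {H : Type*} [NormedAddCommGroup H] [InnerProductSpace 𝕜 H] {N : ℕ}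
    {b : Fin N → H →L[𝕜] 𝕜} (hb : AdmY b) {v : Fin N → H} (hv : Orthonormal 𝕜 v) :
    ∑ i, ∑ l, ‖b l (ContinuousLinearMap.id 𝕜 H (v i))‖ ^ 2 ≤ N * 1 := by
  have h : ∀ i, ∑ l, ‖b l (ContinuousLinearMap.id 𝕜 H (v i))‖ ^ 2 ≤ 1 := by
    intro i
    have h1 := hb (v i)
    rw [hv.1 i, one_pow] at h1
    exact h1
  refine (Finset.sum_le_sum fun j _ => h j).trans ?_
  simp

/-! ### Hilbert numbers of the three formal identities -/

lemma h_J1T (n : ℕ) : hilbertNumber n (J1T 𝕜) ≤ 1 / ((n : ℝ) + 1) := by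
  apply hilbertNumber_le_of_D n _ (by positivity)
  have hN : ((n + 1 : ℕ) : ℝ) * (1 / ((n : ℝ) + 1)) = 1 := by
    push_cast
    field_simp
  have h := D_le_of_factor (N := n + 1) (J1T 𝕜) (J12 𝕜) (J2T 𝕜) (fun _ => rfl)
    (s := 1 / ((n : ℝ) + 1)) (t := 1 / ((n : ℝ) + 1)) (by positivity) (by positivity)
    (fun x hx => by rw [hN]; exact sum_J12 hx) (fun b hb v hv => by rw [hN]; exact sum_J2T hb hv)
  rwa [Real.sqrt_mul_self (by positivity)] at h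

lemma h_J2T (n : ℕ) : hilbertNumber n (J2T 𝕜) ≤ Real.sqrt (1 / ((n : ℝ) + 1)) := by
  apply hilbertNumber_le_of_D n _ (Real.sqrt_nonneg _)
  have hN : ((n + 1 : ℕ) : ℝ) * (1 / ((n : ℝ) + 1)) = 1 := by
    push_cast
    field_simp
  have h := D_le_of_factor (N := n + 1) (J2T 𝕜) (ContinuousLinearMap.id 𝕜 (Ell2 𝕜)) (J2T 𝕜)
    (fun _ => rfl) (s := 1) (t := 1 / ((n : ℝ) + 1)) (by positivity) (by positivity)
    (fun x hx => sum_adm hx) (fun b hb v hv => by rw [hN]; exact sum_J2T hb hv)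
  rwa [one_mul] at h

lemma h_J12 (n : ℕ) : hilbertNumber n (J12 𝕜) ≤ Real.sqrt (1 / ((n : ℝ) + 1)) := by
  apply hilbertNumber_le_of_D n _ (Real.sqrt_nonneg _)
  have hN : ((n + 1 : ℕ) : ℝ) * (1 / ((n : ℝ) + 1)) = 1 := by
    push_cast
    field_simp
  have h := D_le_of_factor (N := n + 1) (J12 𝕜) (J12 𝕜) (ContinuousLinearMap.id 𝕜 (Ell2 𝕜))
    (fun _ => rfl) (s := 1 / ((n : ℝ) + 1)) (t := 1) (by positivity) (by positivity)
    (fun x hx => by rw [hN]; exact sum_J12 hx) (fun b hb v hv => sum_admY hb hv)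
  rwa [mul_one] at h

lemma a_J1T (n : ℕ) : 1 / 2 ≤ approxNumber n (J1T 𝕜) := by
  apply half_le_approx n _ (fun i => lp.single 1 i (1 : 𝕜))
  · intro i
    rw [lp.norm_single (by norm_num)]
    simp
  · intro i j hij
    have h := lp.norm_apply_le_norm (by simp : (∞ : ℝ≥0∞) ≠ 0)
      (J1T 𝕜 (lp.single 1 i (1 : 𝕜)) - J1T 𝕜 (lp.single 1 j (1 : 𝕜))) i
    rw [lp.coeFn_sub, Pi.sub_apply, J1T_apply, J1T_apply, lp.single_apply_self,
      lp.single_apply_ne _ _ _ hij] at h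
    simpa using h

lemma a_J2T (n : ℕ) : 1 / 2 ≤ approxNumber n (J2T 𝕜) := by
  apply half_le_approx n _ (fun i => lp.single 2 i (1 : 𝕜))
  · intro i
    rw [lp.norm_single (by norm_num)]
    simp
  · intro i j hij
    have h := lp.norm_apply_le_norm (by simp : (∞ : ℝ≥0∞) ≠ 0)
      (J2T 𝕜 (lp.single 2 i (1 : 𝕜)) - J2T 𝕜 (lp.single 2 j (1 : 𝕜))) i
    rw [lp.coeFn_sub, Pi.sub_apply, J2T_apply, J2T_apply, lp.single_apply_self,
      lp.single_apply_ne _ _ _ hij] at h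
    simpa using h

lemma a_J12 (n : ℕ) : 1 / 2 ≤ approxNumber n (J12 𝕜) := by
  apply half_le_approx n _ (fun i => lp.single 1 i (1 : 𝕜))
  · intro i
    rw [lp.norm_single (by norm_num)]
    simp
  · intro i j hij
    have h := lp.norm_apply_le_norm (two_ne_zero : (2 : ℝ≥0∞) ≠ 0)
      (J12 𝕜 (lp.single 1 i (1 : 𝕜)) - J12 𝕜 (lp.single 1 j (1 : 𝕜))) i
    rw [lp.coeFn_sub, Pi.sub_apply, J12_apply, J12_apply, lp.single_apply_self,
      lp.single_apply_ne _ _ _ hij] at h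
    simpa using h

end Spaces

section Means

variable {𝕜 : Type*} [RCLike 𝕜] {X Y : Type*} [NormedAddCommGroup X] [NormedSpace 𝕜 X]
  [NormedAddCommGroup Y] [NormedSpace 𝕜 Y]

lemma prodh_nonneg (N : ℕ) (S : X →L[𝕜] Y) : 0 ≤ ∏ k ∈ Finset.range N, hilbertNumber k S :=
  Finset.prod_nonneg fun k _ => hilbertNumber_nonneg k S

lemma geomMean_nonneg (n : ℕ) (S : X →L[𝕜] Y) : 0 ≤ geomMean n S :=
  Real.rpow_nonneg (prodh_nonneg _ _) _

lemma geomMean_pow (n : ℕ) (S : X →L[𝕜] Y) :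
    geomMean n S ^ (n + 1) = ∏ k ∈ Finset.range (n + 1), hilbertNumber k S := by
  rw [geomMean, ← Real.rpow_natCast, ← Real.rpow_mul (prodh_nonneg _ _)]
  have : 1 / ((n : ℝ) + 1) * ((n + 1 : ℕ) : ℝ) = 1 := by
    push_cast
    field_simp
  rw [this, Real.rpow_one]

lemma prod_inv_le (n : ℕ) : ∏ k ∈ Finset.range (n + 1), (1 / ((k : ℝ) + 1)) =
    1 / (((n + 1).factorial : ℕ) : ℝ) := by
  induction n with
  | zero => simp
  | succ n ih =>
    rw [Finset.prod_range_succ, ih, Nat.factorial_succ (n + 1)]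
    push_cast
    field_simp

lemma pow_div_le (n : ℕ) :
    ((n : ℝ) + 1) ^ (n + 1) * (1 / (((n + 1).factorial : ℕ) : ℝ)) ≤ Real.exp 1 ^ (n + 1) := by
  have h := Real.pow_div_factorial_le_exp (x := (n : ℝ) + 1) (by positivity) (n + 1)
  rw [← Real.exp_nat_mul, mul_one, mul_one_div]
  push_cast at h ⊢
  exact h

lemma geom_linear (n : ℕ) (S : X →L[𝕜] Y) (h : ∀ k, hilbertNumber k S ≤ 1 / ((k : ℝ) + 1)) :
    ((n : ℝ) + 1) * geomMean n S ≤ Real.exp 1 := by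
  apply le_of_pow_le_pow_left₀ (Nat.succ_ne_zero n) (Real.exp_pos 1).le
  refine le_trans ?_ (pow_div_le n)
  rw [mul_pow, geomMean_pow, ← prod_inv_le]
  apply mul_le_mul_of_nonneg_left _ (by positivity)
  exact Finset.prod_le_prod (fun k _ => hilbertNumber_nonneg k S) fun k _ => h k

lemma geom_sqrt (n : ℕ) (S : X →L[𝕜] Y)
    (h : ∀ k, hilbertNumber k S ≤ Real.sqrt (1 / ((k : ℝ) + 1))) :
    Real.sqrt ((n : ℝ) + 1) * geomMean n S ≤ Real.sqrt (Real.exp 1) := by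
  have h0 : 0 ≤ Real.sqrt ((n : ℝ) + 1) * geomMean n S :=
    mul_nonneg (Real.sqrt_nonneg _) (geomMean_nonneg n S)
  apply Real.le_sqrt_of_sq_le
  apply le_of_pow_le_pow_left₀ (Nat.succ_ne_zero n) (Real.exp_pos 1).le
  refine le_trans ?_ (pow_div_le n)
  rw [mul_pow, Real.sq_sqrt (by positivity), mul_pow, ← pow_mul, mul_comm 2 (n + 1), pow_mul,
    geomMean_pow, ← prod_inv_le]
  apply mul_le_mul_of_nonneg_left _ (by positivity)
  rw [← Finset.prod_pow]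
  apply Finset.prod_le_prod (fun k _ => sq_nonneg _)
  intro k _
  calc hilbertNumber k S ^ 2 ≤ Real.sqrt (1 / ((k : ℝ) + 1)) ^ 2 :=
        pow_le_pow_left₀ (hilbertNumber_nonneg k S) (h k) 2
    _ = 1 / ((k : ℝ) + 1) := Real.sq_sqrt (by positivity)

lemma approx_pow_le (n : ℕ) (S : X →L[𝕜] Y) :
    approxNumber n S ^ (n + 1) ≤ ∏ m ∈ Finset.range (n + 1), approxNumber m S := by
  have h2 : approxNumber n S ^ (n + 1) = ∏ _m ∈ Finset.range (n + 1), approxNumber n S := by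
    rw [Finset.prod_const, Finset.card_range]
  rw [h2]
  apply Finset.prod_le_prod
  · intro i _
    exact approxNumber_nonneg n S
  · intro i hi
    exact approxNumber_antitone S (Nat.lt_succ_iff.mp (Finset.mem_range.mp hi))

lemma general_prod (N : ℕ) (S : X →L[𝕜] Y) :
    ∏ m ∈ Finset.range N, approxNumber m S ≤
      (N : ℝ) ^ N * ∏ k ∈ Finset.range N, hilbertNumber k S :=
  (prod_le N S).trans (mul_le_mul_of_nonneg_left (D_le_prod N S) (by positivity))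

/-- from a step estimate with the one-sided constant to the product inequality -/
lemma sqrt_prod (S : X →L[𝕜] Y)
    (H : ∀ m, approxNumber m S * D m S ≤ cst m * D (m + 1) S) (N : ℕ) :
    ∏ m ∈ Finset.range N, approxNumber m S ≤
      Real.sqrt ((N : ℝ) ^ N) * ∏ k ∈ Finset.range N, hilbertNumber k S := by
  have h := prod_of_step S cst cst_nonneg H N
  rw [prod_cst] at h
  exact h.trans (mul_le_mul_of_nonneg_left (D_le_prod N S) (Real.sqrt_nonneg _))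

lemma sqrt_single (S : X →L[𝕜] Y) (n : ℕ)
    (h : ∏ m ∈ Finset.range (n + 1), approxNumber m S ≤
      Real.sqrt (((n + 1 : ℕ) : ℝ) ^ (n + 1)) * ∏ k ∈ Finset.range (n + 1), hilbertNumber k S) :
    approxNumber n S ≤ Real.sqrt ((n : ℝ) + 1) * geomMean n S := by
  apply le_of_pow_le_pow_left₀ (Nat.succ_ne_zero n)
    (mul_nonneg (Real.sqrt_nonneg _) (geomMean_nonneg n S))
  refine (approx_pow_le n S).trans (h.trans (le_of_eq ?_))
  rw [mul_pow, geomMean_pow]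
  congr 1
  rw [Real.sqrt_eq_iff_mul_self_eq (by positivity) (by positivity), ← mul_pow,
    Real.mul_self_sqrt (by positivity)]
  push_cast
  rfl

end Means

end Pool.Agent.Y332.HN
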